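import Mathlib

set_option autoImplicit false

namespace Pool.Agent.K9h64.LLL

open Finset Classical

variable {α ι : Type*}

/-- The outcomes of `Ω` in which no bad event indexed by `S` happens. -/
noncomputable def good (Ω : Finset α) (B : ι → α → Prop) (S : Finset ι) : Finset α :=
  Ω.filter (fun ω => ∀ j ∈ S, ¬ B j ω)

lemma good_empty (Ω : Finset α) (B : ι → α → Prop) : good Ω B ∅ = Ω := by
  simp [good]

lemma good_anti (Ω : Finset α) (B : ι → α → Prop) {S T : Finset ι} (h : S ⊆ T) :
    good Ω B T ⊆ good Ω B S := by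
  intro ω hω
  simp only [good, mem_filter] at hω ⊢
  exact ⟨hω.1, fun j hj => hω.2 j (h hj)⟩

lemma card_good_insert (Ω : Finset α) (B : ι → α → Prop) (S : Finset ι) (i : ι) :
    ((good Ω B (insert i S)).card : ℝ) =
      (good Ω B S).card - (Ω.filter (fun ω => B i ω ∧ ∀ j ∈ S, ¬ B j ω)).card := by
  have h : (good Ω B S).card = (good Ω B (insert i S)).card +
      (Ω.filter (fun ω => B i ω ∧ ∀ j ∈ S, ¬ B j ω)).card := by
    rw [← card_union_of_disjoint]
    · congr 1
      ext ω
      simp only [good, mem_filter, mem_union, mem_insert, forall_eq_or_imp]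
      tauto
    · rw [Finset.disjoint_left]
      intro ω h1 h2
      simp only [good, mem_filter, mem_insert, forall_eq_or_imp] at h1 h2
      exact h1.2.1 h2.2.1
  rw [h]
  push_cast
  ring

/-- A counting form of the lopsided local lemma with a small additive error. -/
theorem lll (Ω : Finset α) (B : ι → α → Prop) (I : Finset ι) (N : ι → Finset ι)
    (x p δ c : ℝ) (D : ℕ) (hx0 : 0 ≤ x) (hx1 : x ≤ 1) (hp : 0 ≤ p) (hδ : 0 ≤ δ) (hc : 0 < c)
    (hN : ∀ i ∈ I, (N i).card ≤ D) (hD : 1 / 2 ≤ (1 - x) ^ D)
    (hI : c ≤ (1 - x) ^ I.card) (hpx : 2 * p + δ / c ≤ x)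
    (hB : ∀ i ∈ I, ∀ S ⊆ I, Disjoint S (N i) →
      ((Ω.filter (fun ω => B i ω ∧ ∀ j ∈ S, ¬ B j ω)).card : ℝ) ≤
        p * (good Ω B S).card + δ * Ω.card) :
    c * Ω.card ≤ (good Ω B I).card := by
  have h1x : 0 ≤ 1 - x := by linarith
  have h1x' : 1 - x ≤ 1 := by linarith
  -- chain lemma
  have chain : ∀ k : ℕ, (∀ S ⊆ I, S.card < k → ∀ i ∈ I, i ∉ S →
      (1 - x) * (good Ω B S).card ≤ (good Ω B (insert i S)).card) →
      ∀ T S : Finset ι, Disjoint T S → T ∪ S ⊆ I → (T ∪ S).card ≤ k →
      (1 - x) ^ T.card * (good Ω B S).card ≤ (good Ω B (T ∪ S)).card := by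
    intro k hk T
    induction T using Finset.induction_on with
    | empty => intro S _ _ _; simp
    | insert a T ha ih =>
      intro S hdis hsub hcard
      have haS : a ∉ S := by
        rw [Finset.disjoint_insert_left] at hdis; exact hdis.1
      have hdis' : Disjoint T S := by
        rw [Finset.disjoint_insert_left] at hdis; exact hdis.2
      have hsub' : T ∪ S ⊆ I := fun y hy => hsub (by
        rw [Finset.insert_union]; exact mem_insert_of_mem hy)
      have haTS : a ∉ T ∪ S := by simp [ha, haS]
      have hcard2 : (insert a T ∪ S).card = (T ∪ S).card + 1 := by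
        rw [Finset.insert_union, card_insert_of_notMem haTS]
      have h1 := ih S hdis' hsub' (by omega)
      have h2 := hk (T ∪ S) hsub' (by omega) a (hsub (by simp)) haTS
      rw [card_insert_of_notMem ha, Finset.insert_union, pow_succ]
      calc (1 - x) ^ T.card * (1 - x) * (good Ω B S).card
          = (1 - x) * ((1 - x) ^ T.card * (good Ω B S).card) := by ring
        _ ≤ (1 - x) * (good Ω B (T ∪ S)).card := by gcongr
        _ ≤ _ := h2
  have main : ∀ k : ℕ, ∀ S ⊆ I, S.card < k → ∀ i ∈ I, i ∉ S →
      (1 - x) * (good Ω B S).card ≤ (good Ω B (insert i S)).card := by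
    intro k
    induction k with
    | zero => intro S _ h; omega
    | succ k ih =>
      intro S hS hcard i hi hiS
      have hch := chain k ih
      set S1 := S ∩ N i with hS1
      set S2 := S \ N i with hS2
      have hS12 : S1 ∪ S2 = S := by
        ext y; simp only [hS1, hS2, mem_union, mem_inter, mem_sdiff]; tauto
      have hdis : Disjoint S1 S2 := by
        rw [Finset.disjoint_left]; intro y h1 h2
        simp only [hS1, hS2, mem_inter, mem_sdiff] at h1 h2
        exact h2.2 h1.2
      have e1 := hch S1 S2 hdis (by rw [hS12]; exact hS) (by rw [hS12]; omega)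
      rw [hS12] at e1
      have e2 := hch S ∅ (Finset.disjoint_empty_right _) (by simpa using hS)
        (by simp; omega)
      rw [good_empty, Finset.union_empty] at e2
      have hS1card : S1.card ≤ D := le_trans (card_le_card (by
        rw [hS1]; exact inter_subset_right)) (hN i hi)
      have hpow1 : 1 / 2 ≤ (1 - x) ^ S1.card :=
        le_trans hD (pow_le_pow_of_le_one h1x h1x' hS1card)
      have hpow2 : c ≤ (1 - x) ^ S.card :=
        le_trans hI (pow_le_pow_of_le_one h1x h1x' (card_le_card hS))
      have e3 := hB i hi S2 (fun y hy => hS (by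
        rw [hS2] at hy; exact (mem_sdiff.mp hy).1)) (by
        rw [Finset.disjoint_left]; intro y h1 h2
        rw [hS2] at h1; exact (mem_sdiff.mp h1).2 h2)
      have e4 : ((Ω.filter (fun ω => B i ω ∧ ∀ j ∈ S, ¬ B j ω)).card : ℝ) ≤
          (Ω.filter (fun ω => B i ω ∧ ∀ j ∈ S2, ¬ B j ω)).card := by
        norm_cast
        apply card_le_card
        intro ω hω
        simp only [mem_filter] at hω ⊢
        refine ⟨hω.1, hω.2.1, fun j hj => hω.2.2 j ?_⟩
        rw [hS2] at hj; exact (mem_sdiff.mp hj).1
      have g2 : (0 : ℝ) ≤ (good Ω B S2).card := by positivity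
      have g1 : (0 : ℝ) ≤ (good Ω B S).card := by positivity
      have gO : (0 : ℝ) ≤ (Ω.card : ℝ) := by positivity
      have e5 : ((good Ω B S2).card : ℝ) ≤ 2 * (good Ω B S).card := by
        have : 1 / 2 * ((good Ω B S2).card : ℝ) ≤ (1 - x) ^ S1.card * (good Ω B S2).card := by
          gcongr
        linarith
      have e6 : c * (Ω.card : ℝ) ≤ (good Ω B S).card := by
        have : c * (Ω.card : ℝ) ≤ (1 - x) ^ S.card * (Ω.card : ℝ) := by gcongr
        linarith
      have e7 : δ * Ω.card ≤ δ / c * (good Ω B S).card := by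
        have : δ / c * (c * (Ω.card : ℝ)) ≤ δ / c * (good Ω B S).card := by
          apply mul_le_mul_of_nonneg_left e6 (by positivity)
        have h : δ / c * (c * (Ω.card : ℝ)) = δ * Ω.card := by
          field_simp
        linarith
      have e8 : ((Ω.filter (fun ω => B i ω ∧ ∀ j ∈ S, ¬ B j ω)).card : ℝ) ≤
          x * (good Ω B S).card := by
        calc ((Ω.filter (fun ω => B i ω ∧ ∀ j ∈ S, ¬ B j ω)).card : ℝ)
            ≤ p * (good Ω B S2).card + δ * Ω.card := e4.trans e3
          _ ≤ p * (2 * (good Ω B S).card) + δ / c * (good Ω B S).card := by gcongr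
          _ = (2 * p + δ / c) * (good Ω B S).card := by ring
          _ ≤ _ := by gcongr
      rw [card_good_insert]
      linarith
  have := chain I.card (fun S hS hc => main I.card S hS hc) I ∅ (Finset.disjoint_empty_right _)
    (by simp) (by simp)
  rw [good_empty, Finset.union_empty] at this
  calc c * (Ω.card : ℝ) ≤ (1 - x) ^ I.card * Ω.card := by gcongr
    _ ≤ _ := this

end Pool.Agent.K9h64.LLL
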