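import Mathlib

set_option autoImplicit false

namespace Pool.Agent.K9h64.Switch

open Finset

variable {n : ℕ}

/-- the 5-subsets of `Fin n` -/
def E (n : ℕ) : Finset (Finset (Fin n)) := (univ : Finset (Fin n)).powersetCard 5

/-- the degree of a vertex -/
def deg (H : Finset (Finset (Fin n))) (v : Fin n) : ℕ := (H.filter (fun e => v ∈ e)).card

/-- swapping `u` and `v` inside an edge -/
def tau (u v : Fin n) (e : Finset (Fin n)) : Finset (Fin n) :=
  e.map (Equiv.swap u v).toEmbedding

lemma mem_tau (u v w : Fin n) (e : Finset (Fin n)) : w ∈ tau u v e ↔ Equiv.swap u v w ∈ e := by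
  unfold tau
  rw [Finset.mem_map_equiv, Equiv.symm_swap]

lemma tau_tau (u v : Fin n) (e : Finset (Fin n)) : tau u v (tau u v e) = e := by
  ext w
  rw [mem_tau, mem_tau, Equiv.swap_apply_self]

lemma card_tau (u v : Fin n) (e : Finset (Fin n)) : (tau u v e).card = e.card := by
  unfold tau; simp

lemma u_mem_tau (u v : Fin n) (e : Finset (Fin n)) : u ∈ tau u v e ↔ v ∈ e := by
  rw [mem_tau, Equiv.swap_apply_left]

lemma v_mem_tau (u v : Fin n) (e : Finset (Fin n)) : v ∈ tau u v e ↔ u ∈ e := by
  rw [mem_tau, Equiv.swap_apply_right]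

lemma mem_E (e : Finset (Fin n)) : e ∈ E n ↔ e.card = 5 := by
  simp [E]

/-- the edges containing `u` but not `v` -/
def Eu (u v : Fin n) : Finset (Finset (Fin n)) := (E n).filter (fun e => u ∈ e ∧ v ∉ e)

lemma mem_Eu (u v : Fin n) (e : Finset (Fin n)) : e ∈ Eu u v ↔ e.card = 5 ∧ u ∈ e ∧ v ∉ e := by
  simp [Eu, mem_E]

/-- the switch of edges -/
def sig (u v : Fin n) (T : Finset (Finset (Fin n))) (e : Finset (Fin n)) : Finset (Fin n) :=
  if e ∈ T ∨ tau u v e ∈ T then tau u v e else e

lemma sig_sig (u v : Fin n) (T : Finset (Finset (Fin n))) (e : Finset (Fin n)) :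
    sig u v T (sig u v T e) = e := by
  by_cases h : e ∈ T ∨ tau u v e ∈ T
  · have h1 : sig u v T e = tau u v e := by unfold sig; rw [if_pos h]
    have h2 : tau u v e ∈ T ∨ tau u v (tau u v e) ∈ T := by rw [tau_tau]; tauto
    rw [h1]; unfold sig; rw [if_pos h2, tau_tau]
  · have h1 : sig u v T e = e := by unfold sig; rw [if_neg h]
    rw [h1, h1]

lemma card_sig (u v : Fin n) (T : Finset (Finset (Fin n))) (e : Finset (Fin n)) :
    (sig u v T e).card = e.card := by
  unfold sig; split_ifs
  · exact card_tau u v e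
  · rfl

lemma mem_sig {u v w : Fin n} (hu : w ≠ u) (hv : w ≠ v) (T : Finset (Finset (Fin n)))
    (e : Finset (Fin n)) : w ∈ sig u v T e ↔ w ∈ e := by
  unfold sig; split_ifs
  · rw [mem_tau, Equiv.swap_apply_of_ne_of_ne hu hv]
  · rfl

/-- the switched hypergraph -/
def sw (u v : Fin n) (T H : Finset (Finset (Fin n))) : Finset (Finset (Fin n)) :=
  (E n).filter (fun e => sig u v T e ∈ H)

lemma sw_mem (u v : Fin n) (T H : Finset (Finset (Fin n))) :
    sw u v T H ∈ (E n).powerset := by
  rw [mem_powerset]; exact filter_subset _ _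

lemma mem_sw {u v : Fin n} {T H : Finset (Finset (Fin n))} (hH : H ∈ (E n).powerset)
    (e : Finset (Fin n)) : e ∈ sw u v T H ↔ sig u v T e ∈ H := by
  unfold sw
  rw [mem_filter]
  constructor
  · exact fun h => h.2
  · intro h
    refine ⟨?_, h⟩
    have := (mem_powerset.mp hH) h
    rw [mem_E, card_sig] at this
    rwa [mem_E]

lemma sw_sw {u v : Fin n} {T H : Finset (Finset (Fin n))} (hH : H ∈ (E n).powerset) :
    sw u v T (sw u v T H) = H := by
  ext e
  rw [mem_sw (sw_mem _ _ _ _), mem_sw hH, sig_sig]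

lemma deg_sw {u v w : Fin n} (hu : w ≠ u) (hv : w ≠ v) {T H : Finset (Finset (Fin n))}
    (hH : H ∈ (E n).powerset) : deg (sw u v T H) w = deg H w := by
  unfold deg
  apply Finset.card_nbij' (sig u v T) (sig u v T)
  · intro e he
    simp only [coe_filter, Set.mem_ofPred_eq] at he ⊢
    rw [mem_sw hH] at he
    exact ⟨he.1, (mem_sig hu hv T e).mpr he.2⟩
  · intro e he
    simp only [coe_filter, Set.mem_ofPred_eq] at he ⊢
    rw [mem_sw hH, sig_sig]
    exact ⟨he.1, (mem_sig hu hv T e).mpr he.2⟩
  · intro e _; exact sig_sig u v T e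
  · intro e _; exact sig_sig u v T e

/-- the set of `e ∈ Eu` on which `H` is unbalanced -/
def Dset (u v : Fin n) (H : Finset (Finset (Fin n))) : Finset (Finset (Fin n)) :=
  (Eu u v).filter (fun e => ¬ (e ∈ H ↔ tau u v e ∈ H))

lemma deg_u (u v : Fin n) {H : Finset (Finset (Fin n))} (hH : H ∈ (E n).powerset) :
    deg H u = ((Eu u v).filter (fun e => e ∈ H)).card +
      (H.filter (fun e => u ∈ e ∧ v ∈ e)).card := by
  unfold deg
  rw [← card_union_of_disjoint]
  · congr 1
    ext e
    simp only [mem_filter, mem_union, mem_Eu]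
    constructor
    · rintro ⟨h1, h2⟩
      have h5 := (mem_powerset.mp hH) h1
      rw [mem_E] at h5
      by_cases hv : v ∈ e
      · right; exact ⟨h1, h2, hv⟩
      · left; exact ⟨⟨h5, h2, hv⟩, h1⟩
    · rintro (⟨⟨_, h2, _⟩, h1⟩ | ⟨h1, h2, _⟩) <;> exact ⟨h1, h2⟩
  · rw [Finset.disjoint_left]
    intro e h1 h2
    simp only [mem_filter, mem_Eu] at h1 h2
    exact h1.1.2.2 h2.2.2

lemma deg_v (u v : Fin n) {H : Finset (Finset (Fin n))} (hH : H ∈ (E n).powerset) :
    deg H v = ((Eu u v).filter (fun e => tau u v e ∈ H)).card +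
      (H.filter (fun e => u ∈ e ∧ v ∈ e)).card := by
  unfold deg
  have h : ((Eu u v).filter (fun e => tau u v e ∈ H)).card =
      (H.filter (fun e => u ∉ e ∧ v ∈ e)).card := by
    apply Finset.card_nbij' (tau u v) (tau u v)
    · intro e he
      simp only [coe_filter, Set.mem_ofPred_eq, mem_Eu] at he ⊢
      rw [u_mem_tau, v_mem_tau]
      exact ⟨he.2, he.1.2.2, he.1.2.1⟩
    · intro e he
      simp only [coe_filter, Set.mem_ofPred_eq, mem_Eu] at he ⊢
      rw [u_mem_tau, v_mem_tau, tau_tau, card_tau]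
      have h5 := (mem_powerset.mp hH) he.1
      rw [mem_E] at h5
      exact ⟨⟨h5, he.2.2, he.2.1⟩, he.1⟩
    · intro e _; exact tau_tau u v e
    · intro e _; exact tau_tau u v e
  rw [h, ← card_union_of_disjoint]
  · congr 1
    ext e
    simp only [mem_filter, mem_union]
    tauto
  · rw [Finset.disjoint_left]
    intro e h1 h2
    simp only [mem_filter] at h1 h2
    exact h1.2.1 h2.2.1

lemma sw_e {u v : Fin n} {T H : Finset (Finset (Fin n))} (hT : T ⊆ Eu u v)
    (hH : H ∈ (E n).powerset) {e : Finset (Fin n)} (he : e ∈ Eu u v) :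
    e ∈ sw u v T H ↔ (if e ∈ T then tau u v e ∈ H else e ∈ H) := by
  rw [mem_sw hH]
  unfold sig
  have h : tau u v e ∉ T := by
    intro h
    have := hT h
    rw [mem_Eu, v_mem_tau] at this
    rw [mem_Eu] at he
    exact this.2.2 he.2.1
  by_cases h1 : e ∈ T
  · simp [h1]
  · simp [h1, h]

lemma sw_te {u v : Fin n} {T H : Finset (Finset (Fin n))} (hT : T ⊆ Eu u v)
    (hH : H ∈ (E n).powerset) {e : Finset (Fin n)} (he : e ∈ Eu u v) :
    tau u v e ∈ sw u v T H ↔ (if e ∈ T then e ∈ H else tau u v e ∈ H) := by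
  rw [mem_sw hH]
  unfold sig
  rw [tau_tau]
  have h : tau u v e ∉ T := by
    intro h
    have := hT h
    rw [mem_Eu, v_mem_tau] at this
    rw [mem_Eu] at he
    exact this.2.2 he.2.1
  by_cases h1 : e ∈ T
  · simp [h1]
  · simp [h1, h]

lemma Dset_sw {u v : Fin n} {T H : Finset (Finset (Fin n))} (hT : T ⊆ Eu u v)
    (hH : H ∈ (E n).powerset) : Dset u v (sw u v T H) = Dset u v H := by
  unfold Dset
  apply filter_congr
  intro e he
  rw [sw_e hT hH he, sw_te hT hH he]
  split_ifs <;> tauto

/-- equal degrees in the switched hypergraph force a balanced half of the unbalanced set -/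
lemma half_of_eq {u v : Fin n} {T H : Finset (Finset (Fin n))} (hT : T ⊆ Eu u v)
    (hH : H ∈ (E n).powerset) (h : deg (sw u v T H) u = deg (sw u v T H) v) :
    2 * ((Dset u v H).filter (fun e => ¬ (e ∈ H ↔ e ∈ T))).card = (Dset u v H).card := by
  rw [deg_u u v (sw_mem _ _ _ _), deg_v u v (sw_mem _ _ _ _)] at h
  have h' : ((Eu u v).filter (fun e => e ∈ sw u v T H)).card =
      ((Eu u v).filter (fun e => tau u v e ∈ sw u v T H)).card := by omega
  have hA : ((Eu u v).filter (fun e => e ∈ sw u v T H)).card =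
      ((Dset u v H).filter (fun e => ¬ (e ∈ H ↔ e ∈ T))).card +
      ((Eu u v).filter (fun e => e ∈ sw u v T H ∧ tau u v e ∈ sw u v T H)).card := by
    rw [← card_union_of_disjoint]
    · congr 1
      ext e
      simp only [mem_filter, mem_union, Dset]
      by_cases he : e ∈ Eu u v
      · rw [sw_e hT hH he, sw_te hT hH he]
        split_ifs <;> tauto
      · tauto
    · rw [Finset.disjoint_left]
      intro e h1 h2
      simp only [mem_filter, Dset] at h1 h2
      have he := h2.1
      rw [sw_e hT hH he, sw_te hT hH he] at h2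
      split_ifs at h2 <;> tauto
  have hB : ((Eu u v).filter (fun e => tau u v e ∈ sw u v T H)).card =
      ((Dset u v H).filter (fun e => ¬ ¬ (e ∈ H ↔ e ∈ T))).card +
      ((Eu u v).filter (fun e => e ∈ sw u v T H ∧ tau u v e ∈ sw u v T H)).card := by
    rw [← card_union_of_disjoint]
    · congr 1
      ext e
      simp only [mem_filter, mem_union, Dset]
      by_cases he : e ∈ Eu u v
      · rw [sw_e hT hH he, sw_te hT hH he]
        split_ifs <;> tauto
      · tauto
    · rw [Finset.disjoint_left]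
      intro e h1 h2
      simp only [mem_filter, Dset] at h1 h2
      have he := h2.1
      rw [sw_e hT hH he, sw_te hT hH he] at h2
      split_ifs at h2 <;> tauto
  have hC := card_filter_add_card_filter_not (s := Dset u v H) (fun e => ¬ (e ∈ H ↔ e ∈ T))
  omega

/-- central binomial coefficients are small -/
lemma centralBinom_sq (m : ℕ) : (Nat.centralBinom m) ^ 2 * (3 * m + 1) ≤ 16 ^ m := by
  induction m with
  | zero => simp
  | succ m ih =>
    have h := Nat.succ_mul_centralBinom_succ m
    have h2 : (m + 1) ^ 2 * (3 * m + 1) * (Nat.centralBinom (m + 1) ^ 2 * (3 * (m + 1) + 1)) ≤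
        (m + 1) ^ 2 * (3 * m + 1) * 16 ^ (m + 1) := by
      calc (m + 1) ^ 2 * (3 * m + 1) * (Nat.centralBinom (m + 1) ^ 2 * (3 * (m + 1) + 1))
          = ((m + 1) * Nat.centralBinom (m + 1)) ^ 2 * ((3 * m + 1) * (3 * m + 4)) := by ring
        _ = (2 * (2 * m + 1) * Nat.centralBinom m) ^ 2 * ((3 * m + 1) * (3 * m + 4)) := by rw [h]
        _ = (4 * ((2 * m + 1) ^ 2 * (3 * m + 4))) *
            (Nat.centralBinom m ^ 2 * (3 * m + 1)) := by ring
        _ ≤ (4 * (4 * (m + 1) ^ 2 * (3 * m + 1))) * 16 ^ m := by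
            apply Nat.mul_le_mul _ ih
            apply Nat.mul_le_mul le_rfl
            nlinarith
        _ = _ := by ring
    exact Nat.le_of_mul_le_mul_left h2 (by positivity)

/-- few switches give equal degrees -/
lemma few_switches {u v : Fin n} {H : Finset (Finset (Fin n))} (hH : H ∈ (E n).powerset) :
    (((Eu u v).powerset.filter
      (fun T => deg (sw u v T H) u = deg (sw u v T H) v)).card) ^ 2 * (Dset u v H).card ≤
      (2 ^ (Eu u v).card) ^ 2 := by
  classical
  set D := Dset u v H with hD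
  set K := D.card with hK
  have hDsub : D ⊆ Eu u v := filter_subset _ _
  -- the injection
  have hle : ((Eu u v).powerset.filter
      (fun T => deg (sw u v T H) u = deg (sw u v T H) v)).card ≤
      (D.powersetCard (K / 2) ×ˢ (Eu u v \ D).powerset).card := by
    apply Finset.card_le_card_of_injOn
      (fun T => (D.filter (fun e => ¬ (e ∈ H ↔ e ∈ T)), T \ D))
    · intro T hT
      simp only [coe_filter, mem_powerset, Set.mem_ofPred_eq] at hT
      have h1 := half_of_eq hT.1 hH hT.2
      simp only [coe_product, Set.mem_prod, mem_coe, mem_powersetCard, mem_powerset]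
      refine ⟨⟨filter_subset _ _, ?_⟩, ?_⟩
      · rw [← hD] at h1; omega
      · exact sdiff_subset_sdiff hT.1 le_rfl
    · intro T hT T' hT' heq
      simp only [Prod.mk.injEq] at heq
      obtain ⟨h1, h2⟩ := heq
      ext e
      by_cases he : e ∈ D
      · have := Finset.ext_iff.mp h1 e
        simp only [mem_filter, he, true_and] at this
        tauto
      · have := Finset.ext_iff.mp h2 e
        simp only [mem_sdiff, he, not_false_eq_true, and_true] at this
        exact this
  rw [card_product, card_powersetCard, card_powerset, card_sdiff_of_subset hDsub, ← hK] at hle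
  have hKle : K ≤ (Eu u v).card := card_le_card hDsub
  by_cases hpar : 2 * (K / 2) = K
  · set m := K / 2 with hm
    have hcb : (K.choose m) ^ 2 * K ≤ (2 ^ K) ^ 2 := by
      have h1 := centralBinom_sq m
      rw [Nat.centralBinom_eq_two_mul_choose, hpar] at h1
      calc (K.choose m) ^ 2 * K ≤ (K.choose m) ^ 2 * (3 * m + 1) := by
            apply Nat.mul_le_mul le_rfl; omega
        _ ≤ 16 ^ m := h1
        _ = (2 ^ K) ^ 2 := by
            rw [← hpar, ← pow_mul, show (16 : ℕ) = 2 ^ 4 by norm_num, ← pow_mul]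
            congr 1; omega
    calc _ ≤ (K.choose m * 2 ^ ((Eu u v).card - K)) ^ 2 * K := by gcongr
      _ = ((K.choose m) ^ 2 * K) * (2 ^ ((Eu u v).card - K)) ^ 2 := by ring
      _ ≤ (2 ^ K) ^ 2 * (2 ^ ((Eu u v).card - K)) ^ 2 := by gcongr
      _ = (2 ^ (K + ((Eu u v).card - K))) ^ 2 := by rw [pow_add, mul_pow]
      _ = _ := by congr 2; omega
  · -- no switches at all
    have : ((Eu u v).powerset.filter
      (fun T => deg (sw u v T H) u = deg (sw u v T H) v)).card = 0 := by
      rw [card_eq_zero, filter_eq_empty_iff]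
      intro T hT h
      rw [mem_powerset] at hT
      have h1 := half_of_eq hT hH h
      rw [← hD] at h1
      omega
    rw [this]; simp

end Pool.Agent.K9h64.Switch
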