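import Mathlib
import Pool.Agent.K9h64.Switch
import Pool.Agent.K9h64.LLL

set_option autoImplicit false

namespace Pool.Agent.K9h64.Switch

open Finset

variable {n : ℕ}

/-- the balance sign -/
def chi (u v : Fin n) (H : Finset (Finset (Fin n))) (e : Finset (Fin n)) : ℤ :=
  if (e ∈ H ↔ tau u v e ∈ H) then 1 else -1

lemma chi_sq (u v : Fin n) (H : Finset (Finset (Fin n))) (e : Finset (Fin n)) :
    chi u v H e * chi u v H e = 1 := by
  unfold chi; split_ifs <;> norm_num

lemma sum_chi (u v : Fin n) (H : Finset (Finset (Fin n))) :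
    ∑ e ∈ Eu u v, chi u v H e = ((Eu u v).card : ℤ) - 2 * ((Dset u v H).card : ℤ) := by
  have h : ∀ e ∈ Eu u v, chi u v H e = 1 - 2 * (if ¬ (e ∈ H ↔ tau u v e ∈ H) then 1 else 0) := by
    intro e _
    unfold chi; split_ifs <;> first | norm_num | tauto
  rw [sum_congr rfl h, sum_sub_distrib, ← mul_sum, sum_boole]
  simp [Dset]

lemma chi_off (u v : Fin n) {e e' : Finset (Fin n)} (he : e ∈ Eu u v)
    (he' : e' ∈ Eu u v) (hne : e ≠ e') :
    ∑ H ∈ (E n).powerset, chi u v H e * chi u v H e' = 0 := by
  classical
  have heE : e ∈ E n := (mem_filter.mp he).1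
  have hte : tau u v e ≠ e := by
    intro h
    have h1 := (mem_Eu u v e).mp he
    have : u ∈ tau u v e := by rw [h]; exact h1.2.1
    rw [u_mem_tau] at this
    exact h1.2.2 this
  have hte' : tau u v e' ≠ e := by
    intro h
    have h1 := (mem_Eu u v e).mp he
    have h1' := (mem_Eu u v e').mp he'
    have : v ∈ tau u v e' := by rw [v_mem_tau]; exact h1'.2.1
    rw [h] at this
    exact h1.2.2 this
  have key : ∀ H : Finset (Finset (Fin n)),
      chi u v (symmDiff H {e}) e = - chi u v H e := by
    intro H
    unfold chi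
    simp only [mem_symmDiff, mem_singleton, hte, not_true_eq_false, and_false, true_and,
      false_or, not_false_eq_true, and_true, false_and, or_false]
    by_cases h1 : e ∈ H <;> by_cases h2 : tau u v e ∈ H <;> simp [h1, h2]
  have key' : ∀ H : Finset (Finset (Fin n)),
      chi u v (symmDiff H {e}) e' = chi u v H e' := by
    intro H
    unfold chi
    simp only [mem_symmDiff, mem_singleton, hte', hne.symm, not_true_eq_false, and_false,
      true_and, false_or, not_false_eq_true, and_true, false_and, or_false]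
  apply Finset.sum_involution (fun H _ => symmDiff H {e})
  · intro H _
    rw [key, key']; ring
  · intro H _ _ h
    have : e ∈ symmDiff H {e} ↔ e ∈ H := by rw [h]
    simp only [mem_symmDiff, mem_singleton, not_true_eq_false, and_false, true_and,
      false_or] at this
    tauto
  · intro H _
    rw [symmDiff_assoc, symmDiff_self, symmDiff_bot]
  · intro H hH
    rw [mem_powerset] at hH ⊢
    intro x hx
    simp only [mem_symmDiff, mem_singleton] at hx
    rcases hx with ⟨h1, _⟩ | ⟨h1, _⟩
    · exact hH h1
    · rw [h1]; exact heE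

lemma second_moment (u v : Fin n) :
    ∑ H ∈ (E n).powerset, (((Eu u v).card : ℤ) - 2 * ((Dset u v H).card : ℤ)) ^ 2 =
      ((Eu u v).card : ℤ) * (((E n).powerset).card : ℤ) := by
  have h1 : ∀ H ∈ (E n).powerset, (((Eu u v).card : ℤ) - 2 * ((Dset u v H).card : ℤ)) ^ 2 =
      ∑ e ∈ Eu u v, ∑ e' ∈ Eu u v, chi u v H e * chi u v H e' := by
    intro H _
    rw [← sum_chi, pow_two, sum_mul_sum]
  rw [sum_congr rfl h1, sum_comm]
  have h2 : ∀ e ∈ Eu u v, ∑ H ∈ (E n).powerset, ∑ e' ∈ Eu u v, chi u v H e * chi u v H e' =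
      ((E n).powerset).card := by
    intro e he
    rw [sum_comm]
    rw [sum_eq_single_of_mem e he]
    · rw [sum_congr rfl (fun H _ => chi_sq u v H e)]; simp
    · intro e' he' hne
      exact chi_off u v he he' hne.symm
  rw [sum_congr rfl h2]
  simp

lemma few_small (u v : Fin n) :
    (((E n).powerset).filter (fun H => 4 * (Dset u v H).card < (Eu u v).card)).card *
      (Eu u v).card ≤ 4 * ((E n).powerset).card := by
  by_cases hM : (Eu u v).card = 0
  · rw [hM]; simp
  set M := (Eu u v).card with hMdef
  set Sm := ((E n).powerset).filter (fun H => 4 * (Dset u v H).card < M) with hSm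
  have h1 : (Sm.card : ℤ) * (M : ℤ) ^ 2 ≤ 4 * (M * ((E n).powerset).card) := by
    calc (Sm.card : ℤ) * (M : ℤ) ^ 2 = ∑ H ∈ Sm, (M : ℤ) ^ 2 := by simp
      _ ≤ ∑ H ∈ Sm, 4 * ((M : ℤ) - 2 * (Dset u v H).card) ^ 2 := by
          apply sum_le_sum
          intro H hH
          rw [hSm, mem_filter] at hH
          have := hH.2
          have h3 : (M : ℤ) ≤ 2 * ((M : ℤ) - 2 * (Dset u v H).card) := by omega
          have h4 : (0 : ℤ) ≤ M := by positivity
          nlinarith
      _ ≤ ∑ H ∈ (E n).powerset, 4 * ((M : ℤ) - 2 * (Dset u v H).card) ^ 2 := by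
          apply sum_le_sum_of_subset_of_nonneg (filter_subset _ _)
          intro H _ _; positivity
      _ = 4 * (M * ((E n).powerset).card) := by
          rw [← mul_sum, second_moment]
  have hMpos : (0 : ℤ) < M := by positivity
  have h2 : ((Sm.card * M : ℕ) : ℤ) ≤ ((4 * ((E n).powerset).card : ℕ) : ℤ) := by
    push_cast
    push_cast at h1
    have : (M : ℤ) * ((Sm.card : ℤ) * M) ≤ M * (4 * ((E n).powerset).card) := by
      push_cast
      nlinarith
    have := le_of_mul_le_mul_left this hMpos
    push_cast at this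
    exact this
  exact_mod_cast h2

/-- The main estimate: equality of two degrees is unlikely, even on an event depending on the
other degrees only. -/
lemma main_estimate (u v : Fin n) (F : Finset (Finset (Fin n)) → Prop) [DecidablePred F]
    (hF : ∀ T ⊆ Eu u v, ∀ H ∈ (E n).powerset, F H → F (sw u v T H)) (hM : 0 < (Eu u v).card) :
    ((((E n).powerset).filter (fun H => deg H u = deg H v ∧ F H)).card : ℝ) ≤
      2 / Real.sqrt (Eu u v).card * ((((E n).powerset).filter F).card : ℝ) +
      4 / (Eu u v).card * (((E n).powerset).card : ℝ) := by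
  classical
  set M := (Eu u v).card with hMdef
  set Om := (E n).powerset with hOm
  have hMR : (0 : ℝ) < M := by exact_mod_cast hM
  set F' : Finset (Finset (Fin n)) → Prop := fun H => F H ∧ M ≤ 4 * (Dset u v H).card with hF'
  have hF'inv : ∀ T ⊆ Eu u v, ∀ H ∈ Om, F' H → F' (sw u v T H) := by
    intro T hT H hH h
    refine ⟨hF T hT H hH h.1, ?_⟩
    rw [Dset_sw hT hH]; exact h.2
  -- split
  have hsplit : ((Om.filter (fun H => deg H u = deg H v ∧ F H)).card : ℝ) ≤
      (Om.filter (fun H => deg H u = deg H v ∧ F' H)).card +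
      (Om.filter (fun H => 4 * (Dset u v H).card < M)).card := by
    norm_cast
    refine le_trans (card_le_card ?_) (card_union_le _ _)
    intro H hH
    simp only [mem_filter, mem_union, hF'] at hH ⊢
    by_cases h : M ≤ 4 * (Dset u v H).card
    · left; exact ⟨hH.1, hH.2.1, hH.2.2, h⟩
    · right; exact ⟨hH.1, by omega⟩
  have hsmall : ((Om.filter (fun H => 4 * (Dset u v H).card < M)).card : ℝ) ≤
      4 / M * (Om.card : ℝ) := by
    have := few_small (n := n) u v
    rw [div_mul_eq_mul_div, le_div_iff₀ hMR]
    exact_mod_cast this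
  -- double counting
  have hdc : (2 ^ M) * (Om.filter (fun H => deg H u = deg H v ∧ F' H)).card ≤
      ∑ H ∈ Om.filter F', ((Eu u v).powerset.filter
        (fun T => deg (sw u v T H) u = deg (sw u v T H) v)).card := by
    calc (2 ^ M) * (Om.filter (fun H => deg H u = deg H v ∧ F' H)).card
        = ∑ T ∈ (Eu u v).powerset, (Om.filter (fun H => deg H u = deg H v ∧ F' H)).card := by
          rw [sum_const, card_powerset, smul_eq_mul]
      _ ≤ ∑ T ∈ (Eu u v).powerset, ((Om.filter F').filter
            (fun H => deg (sw u v T H) u = deg (sw u v T H) v)).card := by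
          apply sum_le_sum
          intro T hT
          rw [mem_powerset] at hT
          apply Finset.card_le_card_of_injOn (sw u v T)
          · intro H hH
            simp only [coe_filter, mem_filter, Set.mem_ofPred_eq] at hH ⊢
            refine ⟨⟨sw_mem _ _ _ _, hF'inv T hT H hH.1 hH.2.2⟩, ?_⟩
            rw [sw_sw hH.1]; exact hH.2.1
          · intro H hH H' hH' heq
            simp only [coe_filter, Set.mem_ofPred_eq] at hH hH'
            rw [← sw_sw (u := u) (v := v) (T := T) hH.1, heq, sw_sw hH'.1]
      _ = _ := by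
          simp only [card_filter]
          rw [sum_comm]
  have hR : ((2 : ℝ) ^ M) * (Om.filter (fun H => deg H u = deg H v ∧ F' H)).card ≤
      (2 / Real.sqrt M * 2 ^ M) * ((Om.filter F').card : ℝ) := by
    calc ((2 : ℝ) ^ M) * (Om.filter (fun H => deg H u = deg H v ∧ F' H)).card
        ≤ ∑ H ∈ Om.filter F', (((Eu u v).powerset.filter
        (fun T => deg (sw u v T H) u = deg (sw u v T H) v)).card : ℝ) := by exact_mod_cast hdc
      _ ≤ ∑ H ∈ Om.filter F', (2 / Real.sqrt M * 2 ^ M) := by
          apply sum_le_sum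
          intro H hH
          rw [mem_filter] at hH
          have hfew := few_switches (u := u) (v := v) hH.1
          have hK : M ≤ 4 * (Dset u v H).card := hH.2.2
          set t := ((Eu u v).powerset.filter
            (fun T => deg (sw u v T H) u = deg (sw u v T H) v)).card with ht
          have h1 : t ^ 2 * M ≤ 4 * (2 ^ M) ^ 2 := by
            calc t ^ 2 * M ≤ t ^ 2 * (4 * (Dset u v H).card) := by gcongr
              _ = 4 * (t ^ 2 * (Dset u v H).card) := by ring
              _ ≤ _ := by gcongr
          have h2 : ((t : ℝ) * Real.sqrt M) ^ 2 ≤ (2 * 2 ^ M) ^ 2 := by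
            rw [mul_pow, Real.sq_sqrt hMR.le]
            have : ((t : ℝ) ^ 2 * M) ≤ 4 * (2 ^ M) ^ 2 := by exact_mod_cast h1
            nlinarith
          have h3 : (t : ℝ) * Real.sqrt M ≤ 2 * 2 ^ M :=
            le_trans (le_abs_self _) (abs_le_of_sq_le_sq h2 (by positivity))
          have hs : 0 < Real.sqrt M := Real.sqrt_pos.mpr hMR
          rw [div_mul_eq_mul_div, le_div_iff₀ hs]
          exact h3
      _ = _ := by rw [sum_const, nsmul_eq_mul]; ring
  have hR2 : ((Om.filter (fun H => deg H u = deg H v ∧ F' H)).card : ℝ) ≤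
      2 / Real.sqrt M * ((Om.filter F').card : ℝ) := by
    have h2 : (0 : ℝ) < 2 ^ M := by positivity
    have : (2 : ℝ) ^ M * ((Om.filter (fun H => deg H u = deg H v ∧ F' H)).card : ℝ) ≤
      2 ^ M * (2 / Real.sqrt M * ((Om.filter F').card : ℝ)) := by
      calc _ ≤ _ := hR
        _ = _ := by ring
    exact le_of_mul_le_mul_left this h2
  have hFF' : ((Om.filter F').card : ℝ) ≤ (Om.filter F).card := by
    norm_cast
    apply card_le_card
    intro H hH
    rw [mem_filter] at hH ⊢
    exact ⟨hH.1, hH.2.1⟩
  calc _ ≤ _ := hsplit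
    _ ≤ 2 / Real.sqrt M * ((Om.filter F').card : ℝ) + 4 / M * (Om.card : ℝ) := by gcongr
    _ ≤ _ := by gcongr

end Pool.Agent.K9h64.Switch
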