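import Mathlib
import Pool.Agent.K9h64.Cheb

set_option autoImplicit false

namespace Pool.Agent.K9h64.Irregular

open Finset Pool.Agent.K9h64.Switch Pool.Agent.K9h64.LLL

lemma card_Eu_ge {n : ℕ} {u v : Fin n} (huv : u ≠ v) :
    (n - 2).choose 4 ≤ (Eu u v).card := by
  have h1 : ((univ \ {u, v} : Finset (Fin n)).powersetCard 4).card = (n - 2).choose 4 := by
    rw [card_powersetCard, card_sdiff_of_subset (subset_univ _), card_univ, Fintype.card_fin,
      card_pair huv]
  rw [← h1]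
  apply Finset.card_le_card_of_injOn (fun f => insert u f)
  · intro f hf
    simp only [mem_coe, mem_powersetCard, subset_sdiff] at hf
    simp only [mem_coe, mem_Eu]
    have hu : u ∉ f := fun h => (Finset.disjoint_left.mp hf.1.2 h) (by simp)
    have hv : v ∉ f := fun h => (Finset.disjoint_left.mp hf.1.2 h) (by simp)
    refine ⟨by rw [card_insert_of_notMem hu, hf.2], mem_insert_self _ _, ?_⟩
    simp [huv.symm, hv]
  · intro f hf g hg h
    simp only [mem_coe, mem_powersetCard, subset_sdiff] at hf hg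
    have hu : u ∉ f := fun h => (Finset.disjoint_left.mp hf.1.2 h) (by simp)
    have hu' : u ∉ g := fun h => (Finset.disjoint_left.mp hg.1.2 h) (by simp)
    have := congrArg (fun s => s.erase u) h
    simp only [erase_insert hu, erase_insert hu'] at this
    exact this

lemma M_lower {n : ℕ} (hn : 10 ≤ n) {u v : Fin n} (huv : u ≠ v) :
    (n : ℝ) ^ 4 / 384 ≤ (Eu u v).card := by
  have h1 := card_Eu_ge huv
  have h2 : (n - 2 + 1 - 4) ^ 4 ≤ (n - 2).descFactorial 4 := Nat.pow_sub_le_descFactorial _ _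
  rw [Nat.descFactorial_eq_factorial_mul_choose] at h2
  have h3 : (n - 5) ^ 4 ≤ 24 * (Eu u v).card := by
    have e : n - 2 + 1 - 4 = n - 5 := by omega
    rw [e] at h2
    calc (n - 5) ^ 4 ≤ Nat.factorial 4 * (n - 2).choose 4 := h2
      _ ≤ 24 * (Eu u v).card := by
        have : Nat.factorial 4 = 24 := rfl
        rw [this]; gcongr
  have h4 : n ≤ 2 * (n - 5) := by omega
  have h5 : n ^ 4 ≤ 384 * (Eu u v).card := by
    calc n ^ 4 ≤ (2 * (n - 5)) ^ 4 := by gcongr
      _ = 16 * (n - 5) ^ 4 := by ring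
      _ ≤ 16 * (24 * (Eu u v).card) := by gcongr
      _ = _ := by ring
  have h6 : (n : ℝ) ^ 4 ≤ 384 * (Eu u v).card := by exact_mod_cast h5
  linarith

lemma exp_lower {y : ℝ} (h0 : 0 ≤ y) (h1 : y ≤ 1 / 2) : Real.exp (-(2 * y)) ≤ 1 - y := by
  rw [Real.exp_neg]
  have h2 : 1 + 2 * y ≤ Real.exp (2 * y) := by
    have := Real.add_one_le_exp (2 * y); linarith
  have h3 : (Real.exp (2 * y))⁻¹ ≤ (1 + 2 * y)⁻¹ := by
    apply inv_anti₀ (by linarith) h2
  refine h3.trans ?_
  rw [inv_le_comm₀ (by linarith) (by linarith), inv_le_iff_one_le_mul₀ (by linarith)]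
  nlinarith

theorem main : ∃ c : ℝ, 0 < c ∧ ∃ N : ℕ, ∀ n : ℕ, N ≤ n →
    c * (((E n).powerset).card : ℝ) ≤
      ((good (E n).powerset (fun (j : Fin n × Fin n) H => deg H j.1 = deg H j.2)
        (univ.filter (fun j : Fin n × Fin n => j.1 < j.2))).card : ℝ) := by
  refine ⟨Real.exp (-200), Real.exp_pos _, 800 + ⌈100 * Real.exp 200⌉₊, ?_⟩
  intro n hn
  have hn800 : 800 ≤ n := by omega
  have hnR : (800 : ℝ) ≤ n := by exact_mod_cast hn800
  have hnpos : (0 : ℝ) < n := by linarith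
  have hnexp : 100 * Real.exp 200 ≤ n := by
    have h1 : (⌈100 * Real.exp 200⌉₊ : ℝ) ≤ n := by
      have : ⌈100 * Real.exp 200⌉₊ ≤ n := by omega
      exact_mod_cast this
    exact (Nat.le_ceil _).trans h1
  set I := (univ.filter (fun j : Fin n × Fin n => j.1 < j.2)) with hI
  set x : ℝ := 100 / (n : ℝ) ^ 2 with hx
  have hn2 : (0 : ℝ) < (n : ℝ) ^ 2 := by positivity
  have hx0 : 0 ≤ x := by positivity
  have hxhalf : x ≤ 1 / 2 := by
    rw [hx, div_le_iff₀ hn2]; nlinarith
  have hIcard : I.card ≤ n ^ 2 := by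
    calc I.card ≤ (univ : Finset (Fin n × Fin n)).card := card_le_card (filter_subset _ _)
      _ = n ^ 2 := by simp [sq]
  apply lll (E n).powerset (fun (j : Fin n × Fin n) H => deg H j.1 = deg H j.2) I
    (fun i => univ.filter (fun j : Fin n × Fin n =>
      j.1 = i.1 ∨ j.1 = i.2 ∨ j.2 = i.1 ∨ j.2 = i.2)) x (40 / (n : ℝ) ^ 2) (1536 / (n : ℝ) ^ 4)
    (Real.exp (-200)) (4 * n) hx0 (by linarith) (by positivity) (by positivity) (Real.exp_pos _)
  · -- number of neighbours
    intro i _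
    have h : (univ.filter (fun j : Fin n × Fin n =>
      j.1 = i.1 ∨ j.1 = i.2 ∨ j.2 = i.1 ∨ j.2 = i.2)) ⊆
      (({i.1} : Finset (Fin n)) ×ˢ univ ∪ ({i.2} : Finset (Fin n)) ×ˢ univ) ∪
      ((univ : Finset (Fin n)) ×ˢ {i.1} ∪ (univ : Finset (Fin n)) ×ˢ {i.2}) := by
      intro j hj
      simp only [mem_filter, mem_univ, true_and] at hj
      simp only [mem_union, mem_product, mem_singleton, mem_univ, and_true, true_and]
      tauto
    calc _ ≤ _ := card_le_card h
      _ ≤ (n + n) + (n + n) := by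
        refine (card_union_le _ _).trans (add_le_add ?_ ?_)
        · refine (card_union_le _ _).trans (add_le_add ?_ ?_) <;> simp
        · refine (card_union_le _ _).trans (add_le_add ?_ ?_) <;> simp
      _ = 4 * n := by ring
  · -- (1-x)^(4n) ≥ 1/2
    have h := one_add_mul_le_pow (a := -x) (by linarith) (4 * n)
    have h2 : 1 + ((4 * n : ℕ) : ℝ) * (-x) = 1 - 400 / n := by
      rw [hx]; push_cast; field_simp; ring
    rw [h2] at h
    have h3 : 400 / (n : ℝ) ≤ 1 / 2 := by
      rw [div_le_iff₀ hnpos]; linarith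
    calc (1 : ℝ) / 2 ≤ 1 - 400 / n := by linarith
      _ ≤ (1 + -x) ^ (4 * n) := h
      _ = _ := by rw [← sub_eq_add_neg]
  · -- exp(-200) ≤ (1-x)^|I|
    calc Real.exp (-200) = (Real.exp (-(2 * x))) ^ (n ^ 2) := by
          rw [← Real.exp_nat_mul]; congr 1; rw [hx]; push_cast; field_simp; norm_num
      _ ≤ (1 - x) ^ (n ^ 2) := by
          apply pow_le_pow_left₀ (Real.exp_pos _).le (exp_lower hx0 hxhalf)
      _ ≤ _ := pow_le_pow_of_le_one (by linarith) (by linarith) hIcard
  · -- 2p + δ/c ≤ x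
    rw [Real.exp_neg, div_inv_eq_mul, hx]
    have h1 : 1536 / (n : ℝ) ^ 4 * Real.exp 200 ≤ 20 / (n : ℝ) ^ 2 := by
      have e : (n : ℝ) ^ 4 = (n : ℝ) ^ 2 * (n : ℝ) ^ 2 := by ring
      rw [e, div_mul_eq_mul_div, div_le_div_iff₀ (by positivity) hn2]
      have h2 : 1536 * Real.exp 200 ≤ 20 * (n : ℝ) ^ 2 := by
        have : 1536 * Real.exp 200 ≤ 20 * (n : ℝ) := by linarith [Real.exp_pos 200]
        nlinarith
      calc 1536 * Real.exp 200 * (n : ℝ) ^ 2 ≤ 20 * (n : ℝ) ^ 2 * (n : ℝ) ^ 2 := by gcongr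
        _ = _ := by ring
    have h3 : (100 : ℝ) / (n : ℝ) ^ 2 = 2 * (40 / (n : ℝ) ^ 2) + 20 / (n : ℝ) ^ 2 := by ring
    rw [h3]; linarith
  · -- the probabilistic estimate
    intro i hi S hS hdis
    have huv : i.1 ≠ i.2 := by
      rw [hI, mem_filter] at hi; exact hi.2.ne
    have hM := M_lower (by omega : 10 ≤ n) huv
    have hMpos : (0 : ℝ) < (Eu i.1 i.2).card := lt_of_lt_of_le (by positivity) hM
    have hest := main_estimate i.1 i.2 (fun H => ∀ j ∈ S, ¬ deg H j.1 = deg H j.2) (by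
      intro T hT H hH h j hj
      have hj' := Finset.disjoint_left.mp hdis hj
      simp only [mem_filter, mem_univ, true_and, not_or] at hj'
      rw [deg_sw hj'.1 hj'.2.1 hH, deg_sw hj'.2.2.1 hj'.2.2.2 hH]
      exact h j hj) (by exact_mod_cast hMpos)
    have hs : 2 / Real.sqrt (Eu i.1 i.2).card ≤ 40 / (n : ℝ) ^ 2 := by
      have h1 : (n : ℝ) ^ 2 / 20 ≤ Real.sqrt (Eu i.1 i.2).card := by
        apply Real.le_sqrt_of_sq_le
        refine le_trans ?_ hM
        have : ((n : ℝ) ^ 2 / 20) ^ 2 = (n : ℝ) ^ 4 / 400 := by ring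
        rw [this]
        apply div_le_div_of_nonneg_left (by positivity) (by norm_num) (by norm_num)
      have h2 : 2 / Real.sqrt (Eu i.1 i.2).card ≤ 2 / ((n : ℝ) ^ 2 / 20) := by
        apply div_le_div_of_nonneg_left (by norm_num) (by positivity) h1
      calc _ ≤ _ := h2
        _ = _ := by field_simp; norm_num
    have hd : 4 / ((Eu i.1 i.2).card : ℝ) ≤ 1536 / (n : ℝ) ^ 4 := by
      have h2 : 4 / ((Eu i.1 i.2).card : ℝ) ≤ 4 / ((n : ℝ) ^ 4 / 384) := by
        apply div_le_div_of_nonneg_left (by norm_num) (by positivity) hM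
      calc _ ≤ _ := h2
        _ = _ := by field_simp; norm_num
    have e1 : ((good (E n).powerset (fun (j : Fin n × Fin n) H => deg H j.1 = deg H j.2)
        S).card : ℝ) = (((E n).powerset).filter
          (fun H => ∀ j ∈ S, ¬ deg H j.1 = deg H j.2)).card := by
      unfold good
      congr 2
      ext H; simp only [mem_filter]
    rw [e1]
    refine le_trans (le_of_eq ?_) (hest.trans ?_)
    · congr 2
      ext H; simp only [mem_filter]
    · gcongr

end Pool.Agent.K9h64.Irregular
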